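import Pool.Agent.MP_a88b1d_nt.H42.Spec

/-! Rows SN (Skolem-Noether for the quaternion order) and TRANS. -/

open Polynomial Quaternion

noncomputable section

namespace Pool.Agent.MP_a88b1d_nt.H99

open Pool.Agent.MP_a88b1d_nt.H42

variable {C : Type} [NontriviallyNormedField C] [Algebra (ZMod 2) C]

theorem two_C : (2 : C) = 0 := by
  have := add_self_C (1 : C)
  rwa [one_add_one_eq_two] at this

/-- The defining relations of the quaternion algebra for a pair of matrices. -/
structure QRel (t n : C) (I J : M2 C) : Prop where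
  ii : I * I = t • (1 : M2 C) + I
  jj : J * J = n • (1 : M2 C)
  ji : J * I = J + I * J

theorem add_self_M (x : M2 C) : x + x = 0 := by
  ext i j
  simp [add_self_C]

/-- The coefficient of `I` in a vanishing combination of `1, I, J, I J` vanishes. -/
theorem coeff_I_zero {t n : C} {I J : M2 C} (h : QRel t n I J) (hn : n ≠ 0) (a b c d : C)
    (hx : a • (1 : M2 C) + b • I + c • J + d • (I * J) = 0) : b = 0 := by
  have h2 : (2 : C) = 0 := two_C
  have e1 : I * (I * J) = t • J + I * J := by
    rw [← mul_assoc, h.ii, add_mul, smul_mul_assoc, one_mul]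
  have e2 : I * J * I = t • J := by
    rw [mul_assoc, h.ji, mul_add, e1]
    linear_combination (norm := module) h2 • (I * J)
  have k1 : c • J + d • (I * J) = 0 := by
    have a1 := congrArg (fun y => I * y) hx
    have a2 := congrArg (fun y => y * I) hx
    simp only [mul_add, add_mul, mul_smul_comm, smul_mul_assoc, mul_one, one_mul, mul_zero,
      zero_mul, h.ii, h.ji, e1, e2] at a1 a2
    linear_combination (norm := module) a1 + a2 -
      h2 • (a • I + (b * t) • (1 : M2 C) + b • I + c • (I * J) + (d * t) • J)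
  have k2 : a • (1 : M2 C) + b • I = 0 := by
    linear_combination (norm := module) hx - k1
  have k3 : b • J = 0 := by
    have a1 := congrArg (fun y => J * y) k2
    have a2 := congrArg (fun y => y * J) k2
    simp only [mul_add, add_mul, mul_smul_comm, smul_mul_assoc, mul_one, one_mul, mul_zero,
      zero_mul, h.ji] at a1 a2
    linear_combination (norm := module) a1 - a2
  have k4 : (b * n) • (1 : M2 C) = 0 := by
    have a1 := congrArg (fun y => y * J) k3
    simp only [smul_mul_assoc, zero_mul, h.jj, smul_smul] at a1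
    exact a1
  have k5 := congrFun (congrFun k4 0) 0
  simp only [Matrix.smul_apply, Matrix.one_apply_eq, smul_eq_mul, mul_one, Matrix.zero_apply]
    at k5
  exact (mul_eq_zero.1 k5).resolve_right hn

/-- The averaging map. -/
def phi (n : C) (I J I' J' M : M2 C) : M2 C :=
  n • (M * (1 + I') + I * M) + J * (M * (1 + I') + I * M) * J'

theorem phi_inter {t n : C} {I J I' J' : M2 C} (h : QRel t n I J) (h' : QRel t n I' J')
    (M : M2 C) : phi n I J I' J' M * I' = I * phi n I J I' J' M ∧
      phi n I J I' J' M * J' = J * phi n I J I' J' M := by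
  have h2 : (2 : C) = 0 := two_C
  unfold phi
  have hN : (M * (1 + I') + I * M) * I' = I * (M * (1 + I') + I * M) := by
    have e1 : I * (I * M) = t • M + I * M := by
      rw [← mul_assoc, h.ii, add_mul, smul_mul_assoc, one_mul]
    simp only [mul_add, add_mul, mul_one, mul_assoc, h'.ii, e1, mul_smul_comm]
    linear_combination (norm := module) h2 • (M * I') - h2 • (I * M)
  generalize M * (1 + I') + I * M = N at hN
  constructor
  · have e1 : J * N * J' * I' = I * (J * N * J') := by
      have e2 : N * (I' * J') = I * (N * J') := by rw [← mul_assoc, hN, mul_assoc]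
      have e3 : J * (I * (N * J')) = J * (N * J') + I * (J * (N * J')) := by
        rw [← mul_assoc, h.ji, add_mul, mul_assoc]
      simp only [mul_assoc, h'.ji, mul_add, e2, e3]
      linear_combination (norm := module) h2 • (J * (N * J'))
    rw [add_mul, mul_add, smul_mul_assoc, mul_smul_comm, hN, e1]
  · have e1 : J * N * J' * J' = n • (J * N) := by
      rw [mul_assoc, h'.jj, mul_smul_comm, mul_one]
    have e2 : J * (J * N * J') = n • (N * J') := by
      rw [mul_assoc, ← mul_assoc J J, h.jj, smul_mul_assoc, one_mul]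
    rw [add_mul, mul_add, smul_mul_assoc, mul_smul_comm, e1, e2, add_comm]

theorem phi_ne {t n : C} {I J I' J' : M2 C} (h : QRel t n I J) (hn : n ≠ 0) :
    ∃ k : Fin 2, phi n I J I' J' (Matrix.single k 0 1) ≠ 0 := by
  by_contra hc
  push Not at hc
  have h2 : (2 : C) = 0 := two_C
  have key : ∀ M : M2 C, phi n I J I' J' M =
      n • (1 * M * (1 + I')) + n • (I * M * 1) + J * M * (I' * J') + (I * J) * M * J' := by
    intro M
    have e3 : J * (I * (M * J')) = J * (M * J') + I * (J * (M * J')) := by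
      rw [← mul_assoc, h.ji, add_mul, mul_assoc]
    unfold phi
    simp only [mul_add, add_mul, mul_one, one_mul, mul_assoc, e3]
    linear_combination (norm := module) h2 • (J * (M * J'))
  have ent : ∀ (P Q : M2 C) (a k : Fin 2),
      (P * Matrix.single k (0 : Fin 2) (1 : C) * Q) a 0 = P a k * Q 0 0 := by
    intro P Q a k
    fin_cases k <;> simp [Matrix.mul_apply, Fin.sum_univ_two, Matrix.single]
  apply hn
  apply coeff_I_zero h hn (n * (1 + I') 0 0) n ((I' * J') 0 0) (J' 0 0)
  ext a k
  have := congrFun (congrFun ((key _).symm.trans (hc k)) a) 0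
  simp only [Matrix.add_apply, Matrix.smul_apply, ent, smul_eq_mul, Matrix.zero_apply,
    Matrix.one_apply_eq] at this ⊢
  linear_combination this

omit [Algebra (ZMod 2) C] in
theorem prop_of_ker {h : M2 C} (hh : h ≠ 0) {v w : Fin 2 → C} (hv0 : v ≠ 0)
    (hv : h.mulVec v = 0) (hw : h.mulVec w = 0) : ∃ a : C, w = a • v := by
  have v0 := congrFun hv 0
  have v1 := congrFun hv 1
  have w0 := congrFun hw 0
  have w1 := congrFun hw 1
  simp only [Matrix.mulVec, dotProduct, Fin.sum_univ_two, Pi.zero_apply] at v0 v1 w0 w1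
  have hD : v 0 * w 1 - v 1 * w 0 = 0 := by
    by_contra hD
    apply hh
    ext i j
    apply mul_right_cancel₀ hD
    fin_cases i <;> fin_cases j <;> simp only [Fin.zero_eta, Fin.mk_one, Matrix.zero_apply]
    · linear_combination (w 1) * v0 - (v 1) * w0
    · linear_combination (v 0) * w0 - (w 0) * v0
    · linear_combination (w 1) * v1 - (v 1) * w1
    · linear_combination (v 0) * w1 - (w 0) * v1
  by_cases h0 : v 0 = 0
  · have h1 : v 1 ≠ 0 := by
      intro h1
      apply hv0
      ext i
      fin_cases i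
      · exact h0
      · exact h1
    refine ⟨w 1 / v 1, ?_⟩
    ext i
    fin_cases i <;> simp only [Fin.zero_eta, Fin.mk_one, Pi.smul_apply, smul_eq_mul]
    · field_simp
      linear_combination (-1 : C) * hD
    · field_simp
  · refine ⟨w 0 / v 0, ?_⟩
    ext i
    fin_cases i <;> simp only [Fin.zero_eta, Fin.mk_one, Pi.smul_apply, smul_eq_mul]
    · field_simp
    · field_simp
      linear_combination hD

theorem det_ne_of_inter {t n : C} {I J I' J' h : M2 C} (h' : QRel t n I' J') (hn : n ≠ 0)
    (hh : h ≠ 0) (hI : h * I' = I * h) (hJ : h * J' = J * h) : h.det ≠ 0 := by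
  intro hd
  obtain ⟨v, hv0, hv⟩ := Matrix.exists_mulVec_eq_zero_iff.2 hd
  have a1 : h.mulVec (I'.mulVec v) = 0 := by
    rw [Matrix.mulVec_mulVec, hI, ← Matrix.mulVec_mulVec, hv, Matrix.mulVec_zero]
  have a2 : h.mulVec (J'.mulVec v) = 0 := by
    rw [Matrix.mulVec_mulVec, hJ, ← Matrix.mulVec_mulVec, hv, Matrix.mulVec_zero]
  obtain ⟨a, ha⟩ := prop_of_ker hh hv0 hv a1
  obtain ⟨b, hb⟩ := prop_of_ker hh hv0 hv a2
  have e1 := congrArg (fun y : M2 C => y.mulVec v) h'.ji
  have e2 := congrArg (fun y : M2 C => y.mulVec v) h'.jj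
  simp only [Matrix.add_mulVec, ← Matrix.mulVec_mulVec, ha, hb, Matrix.mulVec_smul,
    Matrix.smul_mulVec, Matrix.one_mulVec] at e1 e2
  have e3 : b • v = 0 := by linear_combination (norm := module) (-1 : C) • e1
  rw [e3, smul_zero] at e2
  exact hv0 ((smul_eq_zero.1 e2.symm).resolve_left hn)

def qi : Quat A := ⟨0, 1, 0, 0⟩
def qj : Quat A := ⟨0, 0, 1, 0⟩

theorem q_ii : qi * qi = algebraMap A (Quat A) X + qi := by
  ext <;> simp [qi, QuaternionAlgebra.algebraMap_eq]

theorem q_jj : qj * qj = algebraMap A (Quat A) (pp * qq) := by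
  ext <;> simp [qj, QuaternionAlgebra.algebraMap_eq]

theorem q_ji : qj * qi = qj + qi * qj := by
  ext <;> simp [qi, qj, CharTwo.neg_eq]

theorem q_dec (x : Quat A) : x = algebraMap A (Quat A) x.re + algebraMap A (Quat A) x.imI * qi +
    algebraMap A (Quat A) x.imJ * qj + algebraMap A (Quat A) x.imK * (qi * qj) := by
  ext <;> simp [qi, qj, QuaternionAlgebra.algebraMap_eq]

theorem emb_alg {T : C} {ι : Quat A →+* M2 C} (h : Emb T ι) (f : A) :
    ι (algebraMap A (Quat A) f) = aeval T f • (1 : M2 C) := by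
  rw [h.1, Matrix.scalar_apply, Matrix.smul_one_eq_diagonal]

theorem emb_rel {T : C} {ι : Quat A →+* M2 C} (h : Emb T ι) :
    QRel T (aeval T (pp * qq)) (ι qi) (ι qj) where
  ii := by rw [← map_mul, q_ii, map_add, emb_alg h, aeval_X]
  jj := by rw [← map_mul, q_jj, emb_alg h]
  ji := by rw [← map_mul ι, q_ji, map_add ι, map_mul ι]

theorem emb_dec {T : C} {ι : Quat A →+* M2 C} (h : Emb T ι) (x : Quat A) :
    ι x = aeval T x.re • (1 : M2 C) + aeval T x.imI • ι qi + aeval T x.imJ • ι qj +
      aeval T x.imK • (ι qi * ι qj) := by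
  conv_lhs => rw [q_dec x]
  simp only [map_add, map_mul, emb_alg h, smul_mul_assoc, one_mul]

/-- Matrices with entries in `F_∞`. -/
def MS (T : C) : Subring (M2 C) where
  carrier := {x | ∀ i j, x i j ∈ Finf T}
  one_mem' := (MK T).one_mem.1
  mul_mem' := fun {x y} hx hy i j => by
    rw [Matrix.mul_apply]; exact sum_mem fun k _ => mul_mem (hx i k) (hy k j)
  zero_mem' := fun _ _ => zero_mem _
  add_mem' := fun {x y} hx hy i j => add_mem (hx i j) (hy i j)
  neg_mem' := fun {x} hx i j => neg_mem (hx i j)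

theorem sn (T : C) (hT : 1 < ‖T‖) (h : LT T) : SN T := by
  intro ι ι' hι hι'
  have hn : aeval T (pp * qq) ≠ 0 := by
    have h0 : pp * qq ≠ 0 := by rw [nn_eq]; exact ofN_ne_zero (by norm_num)
    rw [← norm_pos_iff, h.ev _ h0]
    exact pow_pos (lt_trans one_pos hT) _
  have r := emb_rel hι
  have r' := emb_rel hι'
  obtain ⟨k, hk⟩ := phi_ne (I' := ι' qi) (J' := ι' qj) r hn
  obtain ⟨hI, hJ⟩ := phi_inter r r' (Matrix.single k 0 1)
  have hd := det_ne_of_inter r' hn hk hI hJ
  have hm : phi (aeval T (pp * qq)) (ι qi) (ι qj) (ι' qi) (ι' qj) (Matrix.single k 0 1) ∈ MS T := by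
    have m1 : ι qi ∈ MS T := hι.2 qi
    have m2 : ι qj ∈ MS T := hι.2 qj
    have m3 : ι' qi ∈ MS T := hι'.2 qi
    have m4 : ι' qj ∈ MS T := hι'.2 qj
    have m5 : (Matrix.single k 0 1 : M2 C) ∈ MS T := by
      intro i j
      rw [Matrix.single_apply]
      split_ifs
      · exact one_mem _
      · exact zero_mem _
    have m6 := add_mem (mul_mem m5 (add_mem (one_mem _) m3)) (mul_mem m1 m5)
    refine add_mem (fun i j => ?_) (mul_mem (mul_mem m2 m6) m4)
    exact mul_mem (aeval_mem_Finf T _) (m6 i j)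
  refine ⟨⟨_, hm, hd⟩, fun x => ?_⟩
  show phi _ _ _ _ _ _ * ι' x = ι x * phi _ _ _ _ _ _
  generalize phi (aeval T (pp * qq)) (ι qi) (ι qj) (ι' qi) (ι' qj) (Matrix.single k 0 1) = H
    at hI hJ
  have hK : H * (ι' qi * ι' qj) = ι qi * ι qj * H := by
    rw [← mul_assoc, hI, mul_assoc, hJ, mul_assoc]
  rw [emb_dec hι, emb_dec hι']
  simp only [mul_add, add_mul, mul_smul_comm, smul_mul_assoc, mul_one, one_mul, hI, hJ, hK]

theorem trans (T : C) (hp : PA) (ht : TREE T) : TRANS T := by
  intro G _ ρ ρ' h hc hg hgr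
  have api := hp _ _ _ G ρ ht.tree hg.2
  have e1 : ∀ g x, h * (ρ' g * x) = ρ g * (h * x) := by
    intro g x
    rw [← mul_assoc, hc, mul_assoc]
  have hdd : ∀ x y, dd T x y = dd T (h * x) (h * y) := fun x y => (ht.tree.inv h x y).symm
  have hDD : ∀ x y u u', DD (dd T) x y u u' = DD (dd T) (h * x) (h * y) (h * u) (h * u') := by
    intro x y u u'
    unfold DD
    rw [← hdd, ← hdd, ← hdd, ← hdd]
  have hpsi : ∀ a b, Psi (dd T) ρ' 1 (ρ' a) 1 (ρ' b) = Psi (dd T) ρ 1 (ρ a) 1 (ρ b) := by
    intro a b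
    rw [← api.base' a h, ← api.base b _ _ h]
    unfold Psi
    apply finsum_congr
    intro g
    rw [hDD, e1, e1, hc, hc, mul_one]
  refine ⟨⟨fun g => ?_, fun R => ?_⟩, ?_⟩
  · have e := congrArg (fun y : MK T => y.1.det) (hc g)
    simp only [Submonoid.coe_mul, Matrix.det_mul, hg.1 g, one_mul] at e
    exact mul_left_cancel₀ h.2.2 (e.trans (mul_one _).symm)
  · refine (api.prop h h R).subset fun g hg' => ?_
    have e : dd T 1 (ρ' g) ≤ R := hg'
    rw [hdd, hc, mul_one] at e
    exact e
  · obtain ⟨γ, hγ⟩ := hgr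
    refine ⟨γ, fun c hc' => hγ c fun a => ?_⟩
    have := hc' a
    simp only [hpsi] at this
    exact this

end Pool.Agent.MP_a88b1d_nt.H99
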